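import Pool.Agent.H369.SM.Stm

/-!
# Smoothing of nodal curves: basis over the fraction field (part BRK)
-/

set_option autoImplicit false
set_option maxHeartbeats 4000000
set_option synthInstance.maxHeartbeats 400000

namespace Pool.Agent.H286.SM

open Pool.Agent.TH549.CK Pool.Agent.H369.SM TensorProduct
open Pool.Agent.TH549.CK.P6 (exists_X_pow_mul algebraMap_RK_coeff smul_coeff li_Lp)

variable {F 𝕂 P : Type} [Field F] [Field 𝕂] [Algebra F 𝕂]

theorem coeff_oh' (o : PowerSeries F) (m : ℕ) :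
    PowerSeries.coeff m (Pool.Agent.H369.SM.oh F 𝕂 o) = algebraMap F 𝕂 (PowerSeries.coeff m o) := by
  simp [Pool.Agent.H369.SM.oh, PowerSeries.coeff_map]

/-- independence over the constants -/
theorem oh_indep {r : ℕ} {e : Fin r → PowerSeries 𝕂}
    (he : LinearIndependent F (fun x => PowerSeries.coeff 0 (e x)))
    {o : Fin r → PowerSeries F} (ho : ∑ x, Pool.Agent.H369.SM.oh F 𝕂 (o x) * e x = 0) (x : Fin r) :
    o x = 0 := by
  have key : ∀ m : ℕ, ∀ x, PowerSeries.coeff m (o x) = 0 := by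
    intro m
    induction m using Nat.strong_induction_on with
    | _ m ih =>
      have h1 : PowerSeries.coeff m (∑ x, Pool.Agent.H369.SM.oh F 𝕂 (o x) * e x) = 0 := by
        rw [ho, map_zero]
      rw [map_sum] at h1
      have h2 : ∀ x, PowerSeries.coeff m (Pool.Agent.H369.SM.oh F 𝕂 (o x) * e x) =
          PowerSeries.coeff m (o x) • PowerSeries.coeff 0 (e x) := by
        intro x
        rw [PowerSeries.coeff_mul, Finset.sum_eq_single (m, 0)]
        · rw [coeff_oh', Algebra.smul_def]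
        · rintro ⟨i, j⟩ hij hne
          have hij := Finset.HasAntidiagonal.mem_antidiagonal.1 hij
          simp only at hij ⊢
          have hi : i < m := by
            by_contra hcon
            apply hne
            have h3 : i = m := by omega
            have h4 : j = 0 := by omega
            rw [h3, h4]
          rw [coeff_oh', ih i hi x]
          simp
        · intro hcon
          exact absurd (Finset.HasAntidiagonal.mem_antidiagonal.2 (by simp)) hcon
      rw [Finset.sum_congr rfl (fun x _ => h2 x)] at h1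
      exact Fintype.linearIndependent_iff.1 he _ h1
  ext m
  rw [key m x, map_zero]

theorem Bd_iff_cinf {C : Crv F 𝕂 P} {m : ℕ} {N : Nodes P m} {n : ℕ} {f : PowerSeries 𝕂} :
    Pool.Agent.H369.SM.Bd C N n f ↔
      ∀ k : ℤ, k < -(n : ℤ) → Pool.Agent.H369.SM.cinf C N f k = 0 := by
  constructor
  · intro h k hk
    ext j
    unfold Pool.Agent.H369.SM.cinf
    rw [PowerSeries.coeff_mk, map_zero]
    exact h j k hk
  · intro h k l hl
    have h1 := congrArg (PowerSeries.coeff k) (h l hl)
    unfold Pool.Agent.H369.SM.cinf at h1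
    rw [PowerSeries.coeff_mk, map_zero] at h1
    exact h1

theorem basisRK (h1 : S_basis) (h2 : S_chi) (h3 : S_oh) : S_basisRK := by
  intro F 𝕂 P _ _ _ C h hRR m N K _ _ _ n
  have ohm : ∀ o : PowerSeries F,
      Pool.Agent.H369.SM.oh F 𝕂 o ∈ Pool.Agent.H369.SM.MB C N := fun o =>
    ⟨(h3 F 𝕂 P C m N o).1, 0, (h3 F 𝕂 P C m N o).2.1⟩
  obtain ⟨χ, hχ, hinj, hoh, hsurj⟩ := h2 F 𝕂 P C m N K
  obtain ⟨r, e₀, he₀, hli, hspan, hr⟩ := h1 F 𝕂 P C h hRR m N n
  let e : Fin r → Pool.Agent.H369.SM.MB C N := fun x => ⟨e₀ x, (he₀ x).1, n, (he₀ x).2⟩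
  have hee : ∀ x, ((e x : Pool.Agent.H369.SM.MB C N) : PowerSeries 𝕂) = e₀ x := fun x => rfl
  have hmem : ∀ x, χ (e x) ∈ Lp (Pool.Agent.H369.SM.RK K C N) n := by
    intro x k hk
    rw [hχ, hee, (Bd_iff_cinf.1 (he₀ x).2) k hk, map_zero]
  let v : Fin r → Lp (Pool.Agent.H369.SM.RK K C N) n := fun x => ⟨χ (e x), hmem x⟩
  -- the image of a combination
  have hcomb : ∀ o : Fin r → PowerSeries F,
      χ (∑ x, (⟨Pool.Agent.H369.SM.oh F 𝕂 (o x), ohm (o x)⟩ :
        Pool.Agent.H369.SM.MB C N) * e x) =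
        ∑ x, algebraMap (PowerSeries F) K (o x) • χ (e x) := by
    intro o
    rw [map_sum]
    refine Finset.sum_congr rfl fun x _ => ?_
    rw [map_mul, hoh, Algebra.smul_def]
  have hcoe : ∀ o : Fin r → PowerSeries F,
      (((∑ x, (⟨Pool.Agent.H369.SM.oh F 𝕂 (o x), ohm (o x)⟩ :
        Pool.Agent.H369.SM.MB C N) * e x : Pool.Agent.H369.SM.MB C N)) : PowerSeries 𝕂) =
        ∑ x, Pool.Agent.H369.SM.oh F 𝕂 (o x) * e₀ x := by
    intro o
    simp [e]
  have hlv : LinearIndependent K v := by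
    refine li_Lp v ?_
    intro c hc i
    obtain ⟨d, hd⟩ := IsLocalization.exist_integer_multiples_of_finite
      (nonZeroDivisors (PowerSeries F)) c
    choose o ho using hd
    have h1 : ∑ x, algebraMap (PowerSeries F) K (o x) • χ (e x) = 0 := by
      have h2 : ∀ x, algebraMap (PowerSeries F) K (o x) • χ (e x) =
          algebraMap (PowerSeries F) K (d : PowerSeries F) • (c x • χ (e x)) := by
        intro x
        rw [ho, smul_smul, Algebra.smul_def (d : PowerSeries F) (c x)]
      have hc' : ∑ x, c x • χ (e x) = 0 := hc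
      rw [Finset.sum_congr rfl (fun x _ => h2 x), ← Finset.smul_sum, hc', smul_zero]
    have h2 := hcomb o
    rw [h1] at h2
    have h3 : (∑ x, (⟨Pool.Agent.H369.SM.oh F 𝕂 (o x), ohm (o x)⟩ :
        Pool.Agent.H369.SM.MB C N) * e x) = 0 := by
      apply hinj
      rw [h2, map_zero]
    have h4 := hcoe o
    rw [h3] at h4
    have h5 := oh_indep hli h4.symm i
    have h6 := ho i
    rw [h5, map_zero, Algebra.smul_def] at h6
    have h7 : algebraMap (PowerSeries F) K (d : PowerSeries F) ≠ 0 := by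
      rw [Ne, FaithfulSMul.algebraMap_eq_zero_iff]
      exact nonZeroDivisors.ne_zero d.2
    exact (mul_eq_zero.1 h6.symm).resolve_left h7
  have hsp : ⊤ ≤ Submodule.span K (Set.range v) := by
    rintro ⟨z, hz⟩ -
    obtain ⟨M, f, hf⟩ := hsurj z
    have hXN : algebraMap (PowerSeries F) K (PowerSeries.X ^ M) ≠ 0 := by
      rw [Ne, FaithfulSMul.algebraMap_eq_zero_iff]
      exact pow_ne_zero _ PowerSeries.X_ne_zero
    have hB : Pool.Agent.H369.SM.Bd C N n (f : PowerSeries 𝕂) := by
      rw [Bd_iff_cinf]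
      intro k hk
      have h1 := hχ f k
      rw [← hf, smul_coeff, hz k hk, mul_zero] at h1
      have h2 := h1.symm
      rwa [FaithfulSMul.algebraMap_eq_zero_iff] at h2
    obtain ⟨o, ho⟩ := hspan f f.2.1 hB
    have h1 : f = ∑ x, (⟨Pool.Agent.H369.SM.oh F 𝕂 (o x), ohm (o x)⟩ :
        Pool.Agent.H369.SM.MB C N) * e x := by
      apply Subtype.ext
      rw [hcoe, ho]
    have h2 : (⟨z, hz⟩ : Lp (Pool.Agent.H369.SM.RK K C N) n) =
        (algebraMap (PowerSeries F) K (PowerSeries.X ^ M))⁻¹ •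
        ∑ x, algebraMap (PowerSeries F) K (o x) • v x := by
      rw [eq_inv_smul_iff₀ hXN]
      apply Subtype.ext
      have h4 : ((∑ x, algebraMap (PowerSeries F) K (o x) • v x :
          Lp (Pool.Agent.H369.SM.RK K C N) n) : Pool.Agent.H369.SM.RK K C N) =
          ∑ x, algebraMap (PowerSeries F) K (o x) • χ (e x) := by
        rw [Submodule.coe_sum]
        rfl
      rw [h4, ← hcomb, ← h1, ← hf, Submodule.coe_smul, Algebra.smul_def]
    rw [h2]
    refine Submodule.smul_mem _ _ (Submodule.sum_mem _ fun x _ => Submodule.smul_mem _ _ ?_)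
    exact Submodule.subset_span ⟨x, rfl⟩
  refine ⟨r, e, Module.Basis.mk hlv hsp, fun x => (he₀ x).2, fun x k => ?_, hli, hr⟩
  rw [Module.Basis.mk_apply]
  exact hχ (e x) k

end Pool.Agent.H286.SM
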